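import Pool.Agent.H9.NI2

namespace Pool.Agent.Results.MP_a8e783_an.Counter

variable (X : Type) [NormedAddCommGroup X] [NormedSpace ℝ X]

/-- numerical radius `v(T)` -/
noncomputable def numRad (T : X →L[ℝ] X) : ℝ :=
  sSup {r | ∃ (x : X) (f : X →L[ℝ] ℝ), ‖x‖ = 1 ∧ ‖f‖ = 1 ∧ f x = 1 ∧ r = |f (T x)|}

/-- the quotient norm `‖T + Z(X)‖`, `Z(X)` being the operators of numerical radius zero -/
noncomputable def quotNorm (T : X →L[ℝ] X) : ℝ :=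
  sInf {r | ∃ S : X →L[ℝ] X, numRad X S = 0 ∧ r = ‖T - S‖}

/-- second numerical index `n'(X)` -/
noncomputable def index2 : ℝ :=
  sInf {r | ∃ T : X →L[ℝ] X, numRad X T ≠ 0 ∧ r = numRad X T / quotNorm X T}

theorem result : ∃ (X : Type) (_ : NormedAddCommGroup X) (_ : NormedSpace ℝ X),
    CompleteSpace X ∧ Nontrivial X ∧ index2 X < index2 (X →L[ℝ] ℝ) := by
  have a1 : ∀ (Y : Type) [NormedAddCommGroup Y] [NormedSpace ℝ Y] (T : Y →L[ℝ] Y) (x : Y)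
      (f : Y →L[ℝ] ℝ), ‖x‖ = 1 → ‖f‖ = 1 → f x = 1 → |f (T x)| ≤ numRad Y T :=
    fun Y _ _ T x f e1 e2 e3 => le_csSup ⟨‖T‖, fun _ ⟨q, g, b1, b2, _, e⟩ => e.trans_le
      ((g.le_of_opNorm_le b2.le _).trans ((one_mul _).trans_le (T.unit_le_opNorm q b1.le)))⟩
      ⟨x, f, e1, e2, e3, rfl⟩
  have a2 : ∀ (Y : Type) [NormedAddCommGroup Y] [NormedSpace ℝ Y] (T : Y →L[ℝ] Y),
      0 ≤ numRad Y T := fun Y _ _ T =>
    Real.sSup_nonneg fun _ ⟨_, _, _, _, _, e⟩ => e ▸ abs_nonneg _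
  have a3 : ∀ (Y : Type) [NormedAddCommGroup Y] [NormedSpace ℝ Y] (T : Y →L[ℝ] Y) (c : ℝ), 0 ≤ c →
      (∀ (x : Y) (f : Y →L[ℝ] ℝ), ‖x‖ = 1 → ‖f‖ = 1 → f x = 1 → |f (T x)| ≤ c) →
      numRad Y T ≤ c := fun Y _ _ T c h1 h =>
    Real.sSup_le (fun _ ⟨x, f, e1, e2, e3, e⟩ => e ▸ h x f e1 e2 e3) h1
  have a4 : ∀ (Y : Type) [NormedAddCommGroup Y] [NormedSpace ℝ Y] (T : Y →L[ℝ] Y) (c : ℝ),
      (∀ S, numRad Y S = 0 → c ≤ ‖T - S‖) → c ≤ quotNorm Y T := fun Y _ _ T c h =>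
    le_csInf ⟨_, 0, (a3 Y 0 0 le_rfl (by simp)).antisymm (a2 Y 0), rfl⟩ fun _ ⟨S, e1, e⟩ =>
      e ▸ h S e1
  open H9.NI2 in
  have b0 : Nontrivial X := ⟨⟨e 0, 0, fun h => by simpa using congrArg (d 0) h⟩⟩
  have b1 := fun S (h : numRad _ S = 0) => H9.NI2.T0_far S (h ▸ a1 _ S)
  have b2 := a4 _ _ _ b1
  refine ⟨H9.NI2.X, _, _, inferInstance, b0, lt_of_le_of_lt (csInf_le ⟨0, fun _ ⟨T, _, e⟩ => e ▸
    div_nonneg (a2 _ T) (a4 _ T 0 fun _ _ => norm_nonneg _)⟩ ⟨H9.NI2.T0, fun h => by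
      simpa [not_le.2 one_pos] using b1 _ h, rfl⟩)
    (lt_of_lt_of_le (b := 1 / 10) (((div_le_self (a2 _ _) b2).trans
      (a3 _ _ _ (by norm_num) H9.NI2.T0_le)).trans_lt (by norm_num)) (le_csInf ?_
        fun _ ⟨T, h, e⟩ => e ▸ ?_))⟩
  · obtain ⟨x, hx⟩ := exists_norm_eq H9.NI2.X zero_le_one
    obtain ⟨φ, h1, -⟩ := exists_dual_vector ℝ x (hx.trans_ne one_ne_zero)
    obtain ⟨f, h2, h3⟩ := exists_dual_vector ℝ φ (h1.trans_ne one_ne_zero)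
    refine ⟨_, .id ℝ _, fun h => ?_, rfl⟩
    have := a1 _ (.id ℝ _) φ f h1 h2 (by simpa [h1] using h3)
    norm_num [h, h1, h3] at this
  · have c1 := (a2 _ T).lt_of_ne' h
    have c2 : numRad _ T ≤ quotNorm _ T := a4 _ _ _ fun S hS => a3 _ _ _ (norm_nonneg _)
      fun x f e1 e2 e3 => by
        have := a1 _ (T - S) x f e1 e2 e3
        rw [sub_apply, map_sub,
          abs_nonpos_iff.1 ((a1 _ S x f e1 e2 e3).trans hS.le), sub_zero] at this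
        exact this.trans (a3 _ _ _ (norm_nonneg _) fun q g b1 b2 _ => (g.le_of_opNorm_le b2.le
          _).trans ((one_mul _).trans_le ((T - S).unit_le_opNorm q b1.le)))
    have c3 : quotNorm _ T ≤ 10 * numRad _ T := le_trans (by
      exact csInf_le ⟨0, fun _ ⟨_, _, e⟩ => e ▸ norm_nonneg _⟩
        ⟨_, (a3 _ _ 0 le_rfl (H9.NI2.S0_le _)).antisymm (a2 _ _), rfl⟩)
      (H9.NI2.near T (a1 _ T))
    rw [le_div_iff₀ (c1.trans_le c2)]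
    linarith

end Pool.Agent.Results.MP_a8e783_an.Counter
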